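import Pool.Agent.Lib.MP_ce1fc8_nt.Local

namespace Pool.Agent.Results.MP_ce1fc8_nt.LocallyGood

/-- The `n`-th prime, `p 1 = 2`. -/
noncomputable def p (n : ℕ) : ℕ := Nat.nth Nat.Prime (n - 1)

/-- For every `δ > 0` there is `K` such that for all large `N` at most `δ N` indices `n ≤ N`
satisfy the goodness inequalities for all `1 ≤ i ≤ min (K, n - 1)`. -/
theorem result (δ : ℝ) (hδ : 0 < δ) : ∃ K N₀ : ℕ, ∀ N : ℕ, N₀ ≤ N →
    (Set.ncard {n : ℕ | 1 ≤ n ∧ n ≤ N ∧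
      ∀ i : ℕ, 1 ≤ i → i ≤ n - 1 → i ≤ K → p (n - i) * p (n + i) < p n ^ 2} : ℝ) ≤ δ * N := by
  classical
  obtain ⟨K, hK⟩ := Pool.Agent.Lib.MP_ce1fc8_nt.good_density_local δ hδ
  obtain ⟨N₀, hN₀⟩ := Filter.eventually_atTop.mp hK
  refine ⟨K, N₀, fun N hN => ?_⟩
  set S := (Finset.Icc 1 N).filter (fun n : ℕ =>
    ∀ i : ℕ, 1 ≤ i → i ≤ n - 1 → i ≤ K → p (n - i) * p (n + i) < p n ^ 2) with hS
  have e : {n : ℕ | 1 ≤ n ∧ n ≤ N ∧
      ∀ i : ℕ, 1 ≤ i → i ≤ n - 1 → i ≤ K → p (n - i) * p (n + i) < p n ^ 2} = (S : Set ℕ) := by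
    ext n
    simp only [hS, Set.mem_ofPred_eq, Finset.coe_filter, Finset.mem_Icc, and_assoc]
  rw [e, Set.ncard_coe_finset]
  have h1 := hN₀ N hN (S.image (fun n => n - 1))
    (by
      intro m hm
      obtain ⟨n, hn, rfl⟩ := Finset.mem_image.mp hm
      have := Finset.mem_Icc.mp (Finset.mem_filter.mp hn).1
      exact Finset.mem_range.mpr (by omega))
    (by
      intro m hm i hi hiK
      obtain ⟨n, hn, rfl⟩ := Finset.mem_image.mp hm
      have h2 := Finset.mem_Icc.mp (Finset.mem_filter.mp hn).1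
      have h3 := Finset.mem_Icc.mp hi
      have h4 := (Finset.mem_filter.mp hn).2 i h3.1 h3.2 hiK
      unfold p at h4
      rwa [show n - i - 1 = n - 1 - i by omega, show n + i - 1 = n - 1 + i by omega] at h4)
  rwa [Finset.card_image_of_injOn (by
    intro a ha b hb hab
    have h2 := Finset.mem_Icc.mp (Finset.mem_filter.mp ha).1
    have h3 := Finset.mem_Icc.mp (Finset.mem_filter.mp hb).1
    simp only at hab
    omega)] at h1

end Pool.Agent.Results.MP_ce1fc8_nt.LocallyGood
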